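import Mathlib
import Pool.Agent.N715.AC.Fin
import Pool.Agent.N715.AC.Ind2
import Pool.Agent.N715.AD.Bin
import Pool.Agent.N715.AD.Crt
import Pool.Agent.N715.AD.Hom
import Pool.Agent.N715.AD.Itf
import Pool.Agent.N715.AD.Ldg

/-!
Backward orbits of wandering points: the degrees of the points.
-/

set_option autoImplicit false
set_option linter.unusedSectionVars false

namespace Pool.Agent.N715.BO

open NumberField Module Filter Topology
open Pool.Agent.W238.Leh
open Pool.Agent.H627.LP (Wnd act_iter_smul)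
open Pool.Agent.R829.DL (fod canH_hom iter_map)
open Pool.Agent.N715.AB (exists_model GD finrank_fod fod_inf)
open Pool.Agent.N715.AD (itF pt NZ dz)

noncomputable section

section deg

variable {K : Type} [Field K] {q : ℕ} {F : Fin (1 + 1) → MvPolynomial (Fin (1 + 1)) K}

lemma act_eq_pt {L : Type} [Field L] [Algebra K L] (x : Fin (1 + 1) → L) :
    act F x = pt (fun i => MvPolynomial.map (algebraMap K L) (F i)) x := by
  funext i
  simp only [act, pt]
  rw [MvPolynomial.eval_map, MvPolynomial.aeval_def]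

lemma iter_eq {L : Type} [Field L] [Algebra K L] (x : Fin (1 + 1) → L) (n : ℕ)
    (i : Fin (1 + 1)) : (act F)^[n] x i = MvPolynomial.aeval x (itF F n i) := by
  have h1 : act (M := L) F = pt (fun i => MvPolynomial.map (algebraMap K L) (F i)) := by
    funext x
    exact act_eq_pt x
  rw [h1, ← Pool.Agent.N715.AD.Ldg.pt_itF]
  have h2 : itF (fun i => MvPolynomial.map (algebraMap K L) (F i)) n i =
      MvPolynomial.map (algebraMap K L) (itF F n i) :=
    (Pool.Agent.N715.AD.Crt.map_itF (algebraMap K L) F n i).symm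
  unfold pt
  rw [h2, MvPolynomial.eval_map, MvPolynomial.aeval_def]

/-- the form vanishing at the points of the fibre -/
def fib (F : Fin (1 + 1) → MvPolynomial (Fin (1 + 1)) K) (b : Fin (1 + 1) → K) (n : ℕ) :
    MvPolynomial (Fin (1 + 1)) K :=
  MvPolynomial.C (b 1) * itF F n 0 - MvPolynomial.C (b 0) * itF F n 1

lemma fib_hom (hF : ∀ i, (F i).IsHomogeneous q) (b : Fin (1 + 1) → K) (n : ℕ) :
    (fib F b n).IsHomogeneous (q ^ n) := by
  have h := Pool.Agent.N715.AD.Ldg.homog F q hF n
  refine MvPolynomial.IsHomogeneous.sub ?_ ?_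
  · have h1 := (MvPolynomial.isHomogeneous_C (Fin (1 + 1)) (b 1)).mul (h 0)
    rwa [zero_add] at h1
  · have h1 := (MvPolynomial.isHomogeneous_C (Fin (1 + 1)) (b 0)).mul (h 1)
    rwa [zero_add] at h1

lemma fib_ne (hq : 1 ≤ q) (hF : ∀ i, (F i).IsHomogeneous q)
    (hmor : ∀ z : Fin (1 + 1) → AlgebraicClosure K, (∀ i, MvPolynomial.aeval z (F i) = 0) → z = 0)
    {b : Fin (1 + 1) → K} (hb : b ≠ 0) (n : ℕ) : fib F b n ≠ 0 := by
  intro h0
  have hNZ : NZ (fun i => MvPolynomial.map (algebraMap K (AlgebraicClosure K)) (F i)) := by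
    intro z hz
    apply hmor
    intro i
    have h1 := congrFun hz i
    simp only [pt, Pi.zero_apply] at h1
    rwa [MvPolynomial.eval_map, ← MvPolynomial.aeval_def] at h1
  have hNZn := Pool.Agent.N715.AD.Ldg.nz_itF _ hNZ n
  have hh := Pool.Agent.N715.AD.Ldg.homog F q hF n
  have key : ∀ i j : Fin (1 + 1), i ≠ j → b i ≠ 0 →
      MvPolynomial.C (b i) * itF F n j = MvPolynomial.C (b j) * itF F n i → False := by
    intro i j hne hbi hij
    obtain ⟨z, hz, hz0⟩ := Pool.Agent.N715.AD.binLem.2.2.1 (AlgebraicClosure K)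
      (MvPolynomial.map (algebraMap K (AlgebraicClosure K)) (itF F n i)) (q ^ n)
      (Nat.one_le_pow _ _ (by omega)) ((hh i).map _)
    apply hz
    apply hNZn
    funext l
    unfold pt
    have h2 : itF (fun i => MvPolynomial.map (algebraMap K (AlgebraicClosure K)) (F i)) n l =
        MvPolynomial.map (algebraMap K (AlgebraicClosure K)) (itF F n l) :=
      (Pool.Agent.N715.AD.Crt.map_itF _ F n l).symm
    rw [h2]
    change _ = (0 : AlgebraicClosure K)
    have hi0 : MvPolynomial.eval z
        (MvPolynomial.map (algebraMap K (AlgebraicClosure K)) (itF F n i)) = 0 := hz0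
    have hj0 : MvPolynomial.eval z
        (MvPolynomial.map (algebraMap K (AlgebraicClosure K)) (itF F n j)) = 0 := by
      have h3 := congrArg (fun p => MvPolynomial.eval z
        (MvPolynomial.map (algebraMap K (AlgebraicClosure K)) p)) hij
      simp only [map_mul, MvPolynomial.map_C, MvPolynomial.eval_C, hi0, mul_zero] at h3
      exact (mul_eq_zero.mp h3).resolve_left ((map_ne_zero _).mpr hbi)
    by_cases hl : l = i
    · rw [hl]; exact hi0
    by_cases hl' : l = j
    · rw [hl']; exact hj0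
    exfalso
    fin_cases l <;> fin_cases i <;> fin_cases j <;> simp_all
  unfold fib at h0
  rw [sub_eq_zero] at h0
  by_cases hb1 : b 1 = 0
  · have hb0 : b 0 ≠ 0 := by
      intro hb0
      apply hb
      funext l
      fin_cases l
      · exact hb0
      · exact hb1
    exact key 0 1 (by decide) hb0 h0.symm
  · exact key 1 0 (by decide) hb1 h0

lemma aeval_dz {L : Type} [Field L] [Algebra K L] (p : MvPolynomial (Fin (1 + 1)) K) (z : L) :
    Polynomial.aeval z (dz p) = MvPolynomial.aeval ![z, 1] p := by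
  unfold dz
  rw [← AlgHom.comp_apply, MvPolynomial.comp_aeval]
  congr 2
  funext i
  fin_cases i <;> simp

lemma fib_zero {L : Type} [Field L] [Algebra K L] {b : Fin (1 + 1) → K} {n : ℕ}
    {x : Fin (1 + 1) → L} {c : L} (h : (act F)^[n] x = c • fun i => algebraMap K L (b i)) :
    MvPolynomial.aeval x (fib F b n) = 0 := by
  have h0 := congrFun h 0
  have h1 := congrFun h 1
  rw [iter_eq] at h0 h1
  simp only [Pi.smul_apply, smul_eq_mul] at h0 h1
  unfold fib
  rw [map_sub, map_mul, map_mul, MvPolynomial.aeval_C, MvPolynomial.aeval_C, h0, h1]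
  ring

/-- the polynomial vanishing at the affine points of the fibre -/
def fibP (F : Fin (1 + 1) → MvPolynomial (Fin (1 + 1)) K) (b : Fin (1 + 1) → K) (n : ℕ) :
    Polynomial K := dz (fib F b n)

lemma fibP_ne (hq : 1 ≤ q) (hF : ∀ i, (F i).IsHomogeneous q)
    (hmor : ∀ z : Fin (1 + 1) → AlgebraicClosure K, (∀ i, MvPolynomial.aeval z (F i) = 0) → z = 0)
    {b : Fin (1 + 1) → K} (hb : b ≠ 0) (n : ℕ) : fibP F b n ≠ 0 := fun h =>
  fib_ne hq hF hmor hb n (Pool.Agent.N715.AD.HomA.eq_zero_of_dz (fib_hom hF b n) h)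

lemma fibP_deg (hF : ∀ i, (F i).IsHomogeneous q) (b : Fin (1 + 1) → K) (n : ℕ) :
    (fibP F b n).natDegree ≤ q ^ n :=
  Pool.Agent.N715.AD.Itf.deg_dz _ _ (fib_hom hF b n)

lemma fibP_zero {L : Type} [Field L] [Algebra K L] {b : Fin (1 + 1) → K} {n : ℕ}
    {z : L} {c : L} (h : (act F)^[n] ![z, 1] = c • fun i => algebraMap K L (b i)) :
    Polynomial.aeval z (fibP F b n) = 0 := by
  unfold fibP
  rw [aeval_dz]
  exact fib_zero h

/-- the degree of the points of the fibre -/
lemma deg_fod [NumberField K] (hq : 1 ≤ q) (hF : ∀ i, (F i).IsHomogeneous q)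
    (hmor : ∀ z : Fin (1 + 1) → AlgebraicClosure K, (∀ i, MvPolynomial.aeval z (F i) = 0) → z = 0)
    {b : Fin (1 + 1) → K} (hb : b ≠ 0) {k L : Type} [Field k] [Field L] [Algebra K k]
    [Algebra k L] [Algebra K L] [IsScalarTower K k L] [FiniteDimensional k L] {n : ℕ}
    {x : Fin (1 + 1) → L} {c : L} (h : (act F)^[n] x = c • fun i => algebraMap K L (b i)) :
    finrank k (fod k x) ≤ q ^ n := by
  by_cases hx : x 1 = 0
  · rw [fod_inf hx]
    exact Nat.one_le_pow _ _ (by omega)
  rw [finrank_fod hx]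
  have h1 : MvPolynomial.aeval x (fib F b n) = 0 := fib_zero h
  have h2 : x = x 1 • ![x 0 / x 1, 1] := by
    funext i
    fin_cases i
    · change x 0 = x 1 * (x 0 / x 1)
      rw [mul_div_cancel₀ _ hx]
    · change x 1 = x 1 * 1
      rw [mul_one]
  rw [h2, aeval_smul_hom (fib_hom hF b n), ← aeval_dz] at h1
  have h3 := (mul_eq_zero.mp h1).resolve_left (pow_ne_zero _ hx)
  have h4 : Polynomial.aeval (x 0 / x 1) ((fibP F b n).map (algebraMap K k)) = 0 := by
    rw [Polynomial.aeval_map_algebraMap]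
    exact h3
  have h5 := Polynomial.natDegree_le_natDegree (minpoly.degree_le_of_ne_zero k (x 0 / x 1)
    ((Polynomial.map_ne_zero_iff (algebraMap K k).injective).mpr (fibP_ne hq hF hmor hb n)) h4)
  rw [Polynomial.natDegree_map] at h5
  exact h5.trans (fibP_deg hF b n)

end deg

end

end Pool.Agent.N715.BO
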