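import Mathlib
import Pool.Agent.N715.BO.Deg

/-!
Backward orbits of wandering points: the level of the points of bounded degree over abelian
extensions.
-/

set_option autoImplicit false
set_option linter.unusedSectionVars false

namespace Pool.Agent.N715.BO

open NumberField Module Filter Topology
open Pool.Agent.W238.Leh
open Pool.Agent.H627.LP (Wnd act_iter_smul)
open Pool.Agent.R829.DL (fod canH_hom iter_map)
open Pool.Agent.N715.AB (exists_model GD finrank_fod fod_inf)
open Pool.Agent.N715.AD (itF pt NZ dz)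

noncomputable section

lemma log_le_div {A t : ℝ} (hA : 0 < A) (ht : 0 ≤ t) :
    Real.log (1 + t) ≤ t / A + 1 / A + Real.log A := by
  have h1 : Real.log ((1 + t) / A) ≤ (1 + t) / A - 1 :=
    Real.log_le_sub_one_of_pos (by positivity)
  rw [Real.log_div (by positivity) hA.ne'] at h1
  have h2 : (1 + t) / A = t / A + 1 / A := by ring
  linarith

/-- the numerical inequality -/
lemma num (q C : ℕ) (hq : 2 ≤ q) (hC : 1 ≤ C) (C₁ : ℝ) (hC₁ : 0 ≤ C₁) :
    ∃ C₂ : ℕ, 1 ≤ C₂ ∧ ∀ (n : ℕ) (H : ℝ), 0 ≤ H →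
      (q : ℝ) ^ n ≤ (H + C₁) * (C * (1 + n * Real.log q) ^ C) →
      (n : ℝ) ≤ C₂ * (1 + Real.log (1 + H)) := by
  have hq0 : (0 : ℝ) < q := by exact_mod_cast (by omega : 0 < q)
  have hl : 0 < Real.log q := Real.log_pos (by exact_mod_cast (by omega : 1 < q))
  have hC0 : (0 : ℝ) < C := by exact_mod_cast hC
  obtain ⟨B, hB⟩ : ∃ B : ℝ, B = Real.log (1 + C₁) + Real.log C + C * (1 / (2 * C) +
    Real.log (2 * C)) := ⟨_, rfl⟩
  obtain ⟨C₂, hC₂⟩ := exists_nat_ge (2 * (1 + |B|) / Real.log q)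
  refine ⟨C₂ + 1, by omega, ?_⟩
  intro n H hH h
  have ht : 0 ≤ (n : ℝ) * Real.log q := by positivity
  have hHC : 0 < H + C₁ := by
    by_contra hcon
    push Not at hcon
    have h1 : (0 : ℝ) < (q : ℝ) ^ n := by positivity
    have h2 : (H + C₁) * (C * (1 + n * Real.log q) ^ C) ≤ 0 :=
      mul_nonpos_of_nonpos_of_nonneg hcon (by positivity)
    linarith
  have h1 := Real.log_le_log (by positivity) h
  rw [Real.log_pow, Real.log_mul hHC.ne' (by positivity), Real.log_mul hC0.ne' (by positivity),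
    Real.log_pow] at h1
  have h2 := log_le_div (A := 2 * C) (by positivity) ht
  have h3 : Real.log (H + C₁) ≤ Real.log (1 + H) + Real.log (1 + C₁) := by
    rw [← Real.log_mul (by positivity) (by positivity)]
    apply Real.log_le_log hHC
    nlinarith
  have h4 : (C : ℝ) * Real.log (1 + n * Real.log q) ≤
      n * Real.log q / 2 + C * (1 / (2 * C) + Real.log (2 * C)) := by
    have h5 := mul_le_mul_of_nonneg_left h2 hC0.le
    have h6 : (C : ℝ) * (n * Real.log q / (2 * C)) = n * Real.log q / 2 := by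
      field_simp
    nlinarith
  have h5 : n * Real.log q / 2 ≤ Real.log (1 + H) + B := by
    rw [hB]
    linarith
  have hlH : 0 ≤ Real.log (1 + H) := Real.log_nonneg (by linarith)
  have h6 : n * Real.log q ≤ 2 * (1 + |B|) * (1 + Real.log (1 + H)) := by
    have h7 : B ≤ |B| := le_abs_self B
    have h8 := abs_nonneg B
    nlinarith [mul_nonneg h8 hlH]
  have h7 : (n : ℝ) ≤ 2 * (1 + |B|) / Real.log q * (1 + Real.log (1 + H)) := by
    rw [div_mul_eq_mul_div, le_div_iff₀ hl]
    exact h6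
  refine h7.trans (mul_le_mul_of_nonneg_right ?_ (by linarith))
  push_cast
  linarith

lemma ratio_mem_K {K L : Type} [Field K] [Field L] [Algebra K L] {u v : Fin (1 + 1) → K}
    (hv : v ≠ 0) {c : L} (hc : c ≠ 0)
    (h : (fun i => algebraMap K L (u i)) = c • fun i => algebraMap K L (v i)) :
    ∃ c' : K, c' ≠ 0 ∧ u = c' • v := by
  obtain ⟨i, hi⟩ : ∃ i, v i ≠ 0 := by
    by_contra hcon
    push Not at hcon
    exact hv (funext hcon)
  have h1 := congrFun h i
  simp only [Pi.smul_apply, smul_eq_mul] at h1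
  have hvi : algebraMap K L (v i) ≠ 0 := (map_ne_zero _).mpr hi
  have h2 : c = algebraMap K L (u i / v i) := by
    rw [map_div₀, h1, mul_div_cancel_right₀ _ hvi]
  refine ⟨u i / v i, ?_, ?_⟩
  · intro h3
    rw [h3, map_zero] at h2
    exact hc h2
  · funext j
    have h3 := congrFun h j
    simp only [Pi.smul_apply, smul_eq_mul] at h3 ⊢
    rw [h2, ← map_mul] at h3
    exact (algebraMap K L).injective h3

/-- **the level of points of bounded degree over abelian extensions** -/
theorem level (K : Type) [Field K] [NumberField K] (q : ℕ) (hq : 2 ≤ q)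
    (F : Fin (1 + 1) → MvPolynomial (Fin (1 + 1)) K) (hF : ∀ i, (F i).IsHomogeneous q)
    (hmor : ∀ z : Fin (1 + 1) → AlgebraicClosure K, (∀ i, MvPolynomial.aeval z (F i) = 0) → z = 0)
    (B r : ℕ) :
    ∃ C : ℕ, 1 ≤ C ∧ ∀ (k E L : Type) [Field k] [NumberField k] [Field E] [NumberField E] [Field L]
      [NumberField L] [Algebra K k] [Algebra k E] [Algebra E L] [Algebra K L] [Algebra k L]
      [IsScalarTower K k L] [IsScalarTower k E L] [IsAbelianGalois k E],
      finrank K k ≤ B → finrank E L ≤ r →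
      ∀ b : Fin (1 + 1) → K, b ≠ 0 → Wnd F b →
      ∀ (n : ℕ) (x : Fin (1 + 1) → L) (c : L), c ≠ 0 →
        (act F)^[n] x = c • (fun i => algebraMap K L (b i)) →
        (n : ℝ) ≤ C * (1 + Real.log (1 + Height.logHeight b / finrank ℚ K)) := by
  obtain ⟨C, hC1, hmain⟩ := Pool.Agent.N715.AC.main Pool.Agent.N715.AC.numIndC
    Pool.Agent.N715.AC.primeSelC K q hq F hF hmor B r
  obtain ⟨b₀, c₀, a, nb, A, hb0, hmod⟩ := exists_model K q hq F hF hmor 1
  have hB : Bds (fun i => MvPolynomial.C (b₀ : K) * F i) q A a := by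
    have h1 := hmod K (by rw [finrank_self])
    have h2 : Pool.Agent.N715.AB.bch K (fun i => MvPolynomial.C (b₀ : K) * F i) =
        fun i => MvPolynomial.C (b₀ : K) * F i := by
      funext i
      exact MvPolynomial.map_id _
    rw [h2] at h1
    exact h1.hB
  obtain ⟨H, hH⟩ : ∃ H : Fin (1 + 1) → MvPolynomial (Fin (1 + 1)) K,
    H = fun i => MvPolynomial.C (b₀ : K) * F i := ⟨_, rfl⟩
  have hHh : ∀ i, (H i).IsHomogeneous q := by
    intro i
    have h7 := (MvPolynomial.isHomogeneous_C (Fin (1 + 1)) (b₀ : K)).mul (hF i)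
    rw [zero_add] at h7
    rw [hH]
    exact h7
  obtain ⟨C₂, hC₂, hnum⟩ := num q C hq hC1 (hC A a) hB.hC_nonneg
  refine ⟨C₂, hC₂, ?_⟩
  intro k E L _ _ _ _ _ _ _ _ _ _ _ _ _ _ hk hr b hb hw n x c hc hx
  have hfd : FiniteDimensional k L := Pool.Agent.R829.DL.fd_inter k L
  have hb' : (fun i => algebraMap K L (b i)) ≠ 0 := by
    intro h
    apply hb
    funext i
    exact (map_eq_zero (algebraMap K L)).mp (congrFun h i)
  have hx0 : x ≠ 0 := by
    rintro rfl
    apply hb'
    have h1 : (act F)^[n] (0 : Fin (1 + 1) → L) = 0 := by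
      funext i
      rw [iter_eq]
      have h2 := aeval_smul_hom (Pool.Agent.N715.AD.Ldg.homog F q hF n i) (0 : L)
        (0 : Fin (1 + 1) → L)
      rw [zero_smul, zero_pow (pow_ne_zero _ (by omega)), zero_mul] at h2
      exact h2
    rw [h1] at hx
    exact (smul_eq_zero.mp hx.symm).resolve_left hc
  have hmapb : ∀ m : ℕ, (act F)^[m] (fun i => algebraMap K L (b i)) =
      fun i => algebraMap K L ((act F)^[m] b i) := fun m => iter_map (Algebra.ofId K L) F m b
  have hwx : Wnd F x := by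
    rintro ⟨m', n', hmn, d, hd, hd'⟩
    apply hw
    obtain ⟨c₁, hc₁, h₁⟩ := iter_smul (F := F) hF hc (fun i => algebraMap K L (b i)) n'
    obtain ⟨c₂, hc₂, h₂⟩ := iter_smul (F := F) hF hc (fun i => algebraMap K L (b i)) m'
    obtain ⟨d₁, hd₁, h₃⟩ := iter_smul (F := F) hF hd ((act F)^[m'] x) n
    have e1 : (act F)^[n] ((act F)^[n'] x) = (act F)^[n'] ((act F)^[n] x) := by
      rw [← Function.iterate_add_apply, ← Function.iterate_add_apply, Nat.add_comm n]
    have e2 : (act F)^[n] ((act F)^[m'] x) = (act F)^[m'] ((act F)^[n] x) := by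
      rw [← Function.iterate_add_apply, ← Function.iterate_add_apply, Nat.add_comm n]
    rw [hd', h₃, e2, hx, h₁, h₂, hmapb, hmapb] at e1
    have e3 : (fun i => algebraMap K L ((act F)^[n'] b i)) =
        (c₁⁻¹ * (d₁ * c₂)) • fun i => algebraMap K L ((act F)^[m'] b i) := by
      rw [mul_smul, mul_smul, e1, smul_smul, inv_mul_cancel₀ hc₁, one_smul]
    have hne : (act F)^[m'] b ≠ 0 := by
      intro h0
      have h4 : (act (fun i => MvPolynomial.C (b₀ : K) * F i))^[m'] b = 0 := by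
        obtain ⟨u, hu, h5⟩ := Pool.Agent.H627.LP.act_C_mul_iter (M := K) hb0 hF b m'
        rw [h5, h0, smul_zero]
      exact hB.iter_ne_zero hb m' h4
    obtain ⟨c', hc', e4⟩ := ratio_mem_K hne (mul_ne_zero (inv_ne_zero hc₁) (mul_ne_zero hd₁ hc₂)) e3
    exact ⟨m', n', hmn, c', hc', e4⟩
  obtain ⟨h, hlim, hlow, -⟩ := hmain k E L hk hr x hx0 hwx
  have hlim2 := (Pool.Agent.H627.LR.transfer_scale hb0 hF hq hB hx0).2
  have hh := tendsto_nhds_unique hlim hlim2
  rw [← hH] at hh hB
  have e5 : canH H q ((act H)^[n] x) = (q : ℝ) ^ n * canH H q x := hB.canH_iter hq hx0 n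
  have e6 : canH H q ((act H)^[n] x) = canH H q b := by
    obtain ⟨u, hu, h5⟩ := Pool.Agent.H627.LP.act_C_mul_iter (M := L) hb0 hF x n
    rw [← hH] at h5
    rw [h5, hx, canH_smul hHh hu, canH_smul hHh hc]
    exact canH_hom (Algebra.ofId K L) H q b
  have e7 := abs_le.mp (hB.abs_canH hq hb)
  have hD : ((finrank k (fod k x) : ℕ) : ℝ) ≤ (q : ℝ) ^ n := by
    exact_mod_cast deg_fod (by omega) hF hmor hb hx
  have hD1 : (1 : ℝ) ≤ (finrank k (fod k x) : ℕ) := by
    exact_mod_cast (finrank_pos : 0 < finrank k (fod k x))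
  have hq0 : (0 : ℝ) < q := by exact_mod_cast (by omega : 0 < q)
  have hC0 : (0 : ℝ) < C := by exact_mod_cast hC1
  have e8 : Real.log (finrank k (fod k x) : ℕ) ≤ n * Real.log q := by
    rw [← Real.log_pow]
    exact Real.log_le_log (by linarith) hD
  have e9 : 0 ≤ Real.log (finrank k (fod k x) : ℕ) := Real.log_nonneg hD1
  have e10 : (1 : ℝ) ≤ h * (C * (1 + n * Real.log q) ^ C) := by
    rw [div_le_iff₀ (by positivity)] at hlow
    refine hlow.trans ?_
    have hh0 : 0 ≤ h := by
      rw [hh, hH]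
      rw [hH] at hB
      exact hB.canH_nonneg hq hx0
    apply mul_le_mul_of_nonneg_left _ hh0
    apply mul_le_mul_of_nonneg_left _ hC0.le
    apply pow_le_pow_left₀ (by linarith)
    linarith
  apply hnum n _ (div_nonneg (Height.logHeight_nonneg _) (Nat.cast_nonneg _))
  have e11 : (q : ℝ) ^ n * h ≤ Height.logHeight b / finrank ℚ K + hC A a := by
    rw [hh, ← e5, e6]
    linarith [e7.1]
  have e12 : 0 ≤ (C : ℝ) * (1 + n * Real.log q) ^ C := by
    have : 0 ≤ Real.log (q : ℝ) := Real.log_natCast_nonneg q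
    positivity
  calc (q : ℝ) ^ n = (q : ℝ) ^ n * 1 := (mul_one _).symm
    _ ≤ (q : ℝ) ^ n * (h * (C * (1 + n * Real.log q) ^ C)) :=
        mul_le_mul_of_nonneg_left e10 (by positivity)
    _ = ((q : ℝ) ^ n * h) * (C * (1 + n * Real.log q) ^ C) := by ring
    _ ≤ _ := mul_le_mul_of_nonneg_right e11 e12

end

end Pool.Agent.N715.BO
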