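import Mathlib
import Pool.Agent.N715.BO.Lev

/-!
Backward orbits of wandering points: the orbits of the absolute Galois group of the maximal
abelian extension.
-/

set_option autoImplicit false
set_option linter.unusedSectionVars false

namespace Pool.Agent.N715.BO

open NumberField Module Filter Topology
open Pool.Agent.W238.Leh
open Pool.Agent.H627.LP (Wnd act_iter_smul)
open Pool.Agent.R829.DL (fod canH_hom)
open scoped commutatorElement

noncomputable section

/-- the maximal abelian extension of `K` in its algebraic closure: the field fixed by the commutator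
subgroup of the absolute Galois group -/
def Kab (K : Type) [Field K] : IntermediateField K (AlgebraicClosure K) :=
  IntermediateField.fixedField (commutator Gal(AlgebraicClosure K/K))

section ab

variable {K : Type} [Field K] [NumberField K]

lemma comm_le {E : IntermediateField K (AlgebraicClosure K)} (hE : E ≤ Kab K) :
    commutator Gal(AlgebraicClosure K/K) ≤ E.fixingSubgroup :=
  (IntermediateField.le_iff_le _ _).mp hE

lemma normal_of_comm_le {G : Type} [Group G] {H : Subgroup G} (h : commutator G ≤ H) :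
    H.Normal := by
  refine ⟨fun n hn g => ?_⟩
  have h1 : ⁅g, n⁆ ∈ H := h (Subgroup.commutator_mem_commutator (Subgroup.mem_top g)
    (Subgroup.mem_top n))
  have h2 : g * n * g⁻¹ = ⁅g, n⁆ * n := by
    rw [commutatorElement_def]
    group
  rw [h2]
  exact H.mul_mem h1 hn

lemma abelian_of_le {E : IntermediateField K (AlgebraicClosure K)} (hE : E ≤ Kab K) :
    IsAbelianGalois K E := by
  have hc := comm_le hE
  have hG : IsGalois K E := (InfiniteGalois.normal_iff_isGalois E).mp (normal_of_comm_le hc)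
  refine { toIsGalois := hG, is_comm := ⟨fun σ τ => ?_⟩ }
  obtain ⟨σ', rfl⟩ := AlgEquiv.restrictNormalHom_surjective (F := K) (K₁ := E)
    (AlgebraicClosure K) σ
  obtain ⟨τ', rfl⟩ := AlgEquiv.restrictNormalHom_surjective (F := K) (K₁ := E)
    (AlgebraicClosure K) τ
  rw [← map_mul, ← map_mul]
  ext z
  have h1 : ∀ ρ : Gal(AlgebraicClosure K/K),
      ((AlgEquiv.restrictNormalHom E ρ z : E) : AlgebraicClosure K) = ρ z := fun ρ =>
    AlgEquiv.restrictNormal_commutes ρ E z
  rw [h1, h1]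
  have h2 : ⁅σ'⁻¹, τ'⁻¹⁆ ∈ E.fixingSubgroup :=
    hc (Subgroup.commutator_mem_commutator (Subgroup.mem_top _) (Subgroup.mem_top _))
  have h3 := (IntermediateField.mem_fixingSubgroup_iff _ _).mp h2 z z.2
  have h4 : σ' * τ' = (τ' * σ') * ⁅σ'⁻¹, τ'⁻¹⁆ := by
    rw [commutatorElement_def]
    group
  rw [h4, AlgEquiv.mul_apply, h3]

lemma exists_fin (z : AlgebraicClosure K) :
    ∃ E : IntermediateField K (AlgebraicClosure K), FiniteDimensional K E ∧ E ≤ Kab K ∧
      (minpoly E z).natDegree ≤ (minpoly (Kab K) z).natDegree := by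
  obtain ⟨p, hp⟩ : ∃ p, p = (minpoly (Kab K) z).map (algebraMap (Kab K) (AlgebraicClosure K)) :=
    ⟨_, rfl⟩
  have hint : IsIntegral (Kab K) z := Algebra.IsIntegral.isIntegral z
  have hpm : p.Monic := by
    rw [hp]
    exact (minpoly.monic hint).map _
  obtain ⟨E, hE⟩ : ∃ E : IntermediateField K (AlgebraicClosure K),
    E = IntermediateField.adjoin K (p.coeffs : Set (AlgebraicClosure K)) := ⟨_, rfl⟩
  have hfin : FiniteDimensional K E := by
    rw [hE]
    exact IntermediateField.finiteDimensional_adjoin fun x _ => Algebra.IsIntegral.isIntegral x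
  have hle : E ≤ Kab K := by
    rw [hE, IntermediateField.adjoin_le_iff]
    intro x hx
    obtain ⟨n, -, rfl⟩ := Polynomial.mem_coeffs_iff.mp (Finset.mem_coe.mp hx)
    rw [hp, Polynomial.coeff_map]
    exact ((minpoly (Kab K) z).coeff n).2
  have hlift : p ∈ Polynomial.lifts (algebraMap E (AlgebraicClosure K)) := by
    rw [Polynomial.lifts_iff_coeff_lifts]
    intro n
    by_cases h0 : p.coeff n = 0
    · exact ⟨0, by rw [h0, map_zero]⟩
    · refine ⟨⟨p.coeff n, ?_⟩, rfl⟩
      rw [hE]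
      apply IntermediateField.subset_adjoin
      exact Finset.mem_coe.mpr (Polynomial.coeff_mem_coeffs h0)
  obtain ⟨s, hs1, hs2, hs3⟩ := Polynomial.lifts_and_natDegree_eq_and_monic hlift hpm
  refine ⟨E, hfin, hle, ?_⟩
  have h1 : Polynomial.aeval z s = 0 := by
    rw [Polynomial.aeval_def, ← Polynomial.eval_map, hs1, hp, Polynomial.eval_map,
      ← Polynomial.aeval_def]
    exact minpoly.aeval _ _
  have h2 := Polynomial.natDegree_le_natDegree (minpoly.degree_le_of_ne_zero E z hs3.ne_zero h1)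
  rw [hs2, hp, Polynomial.natDegree_map] at h2
  exact h2

end ab

/-- the affine points of the fibre -/
def Fb {K : Type} [Field K] (F : Fin (1 + 1) → MvPolynomial (Fin (1 + 1)) K) (b : Fin (1 + 1) → K)
    (n : ℕ) : Set (AlgebraicClosure K) :=
  {z | ∃ c : AlgebraicClosure K, c ≠ 0 ∧
    (act F)^[n] ![z, 1] = c • fun i => algebraMap K (AlgebraicClosure K) (b i)}

/-- the orbits under the Galois group over `M` -/
def Ob {K : Type} [Field K] (M : IntermediateField K (AlgebraicClosure K))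
    (z : AlgebraicClosure K) : Set (AlgebraicClosure K) :=
  {w | ∃ σ ∈ M.fixingSubgroup, σ z = w}

section fib

variable {K : Type} [Field K] [NumberField K] {q : ℕ}
  {F : Fin (1 + 1) → MvPolynomial (Fin (1 + 1)) K}

lemma iter_map' {E M : Type} [Field E] [Field M] [Algebra K E] [Algebra K M] (φ : E →ₐ[K] M)
    (n : ℕ) (y : Fin (1 + 1) → E) :
    (act F)^[n] (fun i => φ (y i)) = fun i => φ ((act F)^[n] y i) := by
  funext i
  rw [iter_eq, iter_eq]
  exact (MvPolynomial.comp_aeval_apply (f := y) φ _).symm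

/-- the level, in terms of the degree over the maximal abelian extension -/
lemma levelAb (hq : 2 ≤ q) (hF : ∀ i, (F i).IsHomogeneous q)
    (hmor : ∀ z : Fin (1 + 1) → AlgebraicClosure K, (∀ i, MvPolynomial.aeval z (F i) = 0) → z = 0)
    (r : ℕ) :
    ∃ C : ℕ, 1 ≤ C ∧ ∀ b : Fin (1 + 1) → K, b ≠ 0 → Wnd F b → ∀ (n : ℕ), ∀ z ∈ Fb F b n,
      (minpoly (Kab K) z).natDegree ≤ r →
      (n : ℝ) ≤ C * (1 + Real.log (1 + Height.logHeight b / finrank ℚ K)) := by
  obtain ⟨C, hC, hlev⟩ := level K q hq F hF hmor 1 r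
  refine ⟨C, hC, ?_⟩
  intro b hb hw n z hz hr
  obtain ⟨c, hc, hzc⟩ := hz
  obtain ⟨E, hfin, hle, hdeg⟩ := exists_fin z
  have hab := abelian_of_le hle
  have hEz : IsIntegral E z := Algebra.IsIntegral.isIntegral z
  have hNE : NumberField E := NumberField.of_module_finite K E
  have hfL : FiniteDimensional E (IntermediateField.adjoin E {z}) :=
    IntermediateField.adjoin.finiteDimensional hEz
  have hNL : NumberField (IntermediateField.adjoin E {z}) :=
    NumberField.of_module_finite E (IntermediateField.adjoin E {z})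
  have hfr : finrank E (IntermediateField.adjoin E {z}) ≤ r := by
    rw [IntermediateField.adjoin.finrank hEz]
    exact hdeg.trans hr
  have htow : IsScalarTower K (IntermediateField.adjoin E {z}) (AlgebraicClosure K) :=
    IsScalarTower.of_algebraMap_eq fun x => rfl
  obtain ⟨z', hz'⟩ : ∃ z' : IntermediateField.adjoin E {z},
    algebraMap (IntermediateField.adjoin E {z}) (AlgebraicClosure K) z' = z :=
    ⟨⟨z, IntermediateField.mem_adjoin_simple_self E z⟩, rfl⟩
  have h1 := iter_map' (F := F) (IsScalarTower.toAlgHom K (IntermediateField.adjoin E {z})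
    (AlgebraicClosure K)) n ![z', 1]
  have h2 : (fun i => IsScalarTower.toAlgHom K (IntermediateField.adjoin E {z})
      (AlgebraicClosure K) ((![z', 1] : Fin (1 + 1) → _) i)) = ![z, 1] := by
    funext i
    fin_cases i
    · exact hz'
    · exact map_one _
  rw [h2, hzc] at h1
  obtain ⟨c', hc', h3⟩ := ratio_mem_K (K := IntermediateField.adjoin E {z})
    (L := AlgebraicClosure K) (u := (act F)^[n] ![z', 1])
    (v := fun i => algebraMap K (IntermediateField.adjoin E {z}) (b i)) (by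
      intro h
      apply hb
      funext i
      exact (map_eq_zero (algebraMap K (IntermediateField.adjoin E {z}))).mp (congrFun h i)) hc (by
      refine h1.symm.trans ?_
      rfl)
  exact hlev K E (IntermediateField.adjoin E {z}) (by rw [finrank_self]) hfr b hb hw n ![z', 1] c'
    hc' h3

lemma Fb_subset {b : Fin (1 + 1) → K} {n : ℕ} :
    Fb F b n ⊆ {z | Polynomial.aeval z (fibP F b n) = 0} := by
  rintro z ⟨c, -, hz⟩
  exact fibP_zero hz

lemma roots_card {b : Fin (1 + 1) → K} {n : ℕ} (h0 : fibP F b n ≠ 0) :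
    ((fibP F b n).rootSet (AlgebraicClosure K)).Finite ∧
      ((fibP F b n).rootSet (AlgebraicClosure K)).ncard ≤ (fibP F b n).natDegree := by
  classical
  refine ⟨Polynomial.rootSet_finite _ _, ?_⟩
  rw [Polynomial.rootSet_def, Set.ncard_coe_finset]
  exact (Multiset.toFinset_card_le _).trans ((Polynomial.card_roots' _).trans
    Polynomial.natDegree_map_le)

lemma Fb_card (hq : 1 ≤ q) (hF : ∀ i, (F i).IsHomogeneous q)
    (hmor : ∀ z : Fin (1 + 1) → AlgebraicClosure K, (∀ i, MvPolynomial.aeval z (F i) = 0) → z = 0)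
    {b : Fin (1 + 1) → K} (hb : b ≠ 0) (n : ℕ) :
    (Fb F b n).Finite ∧ (Fb F b n).ncard ≤ q ^ n := by
  have h0 := fibP_ne hq hF hmor hb n
  obtain ⟨h1, h2⟩ := roots_card (F := F) (b := b) (n := n) h0
  have h3 : Fb F b n ⊆ (fibP F b n).rootSet (AlgebraicClosure K) := by
    intro z hz
    rw [Polynomial.mem_rootSet]
    exact ⟨h0, Fb_subset hz⟩
  exact ⟨h1.subset h3, (Set.ncard_le_ncard h3 h1).trans (h2.trans (fibP_deg hF b n))⟩

lemma Fb_stable {b : Fin (1 + 1) → K} {n : ℕ} {z : AlgebraicClosure K} (hz : z ∈ Fb F b n)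
    (σ : Gal(AlgebraicClosure K/K)) : σ z ∈ Fb F b n := by
  obtain ⟨c, hc, h⟩ := hz
  refine ⟨σ c, (map_ne_zero σ).mpr hc, ?_⟩
  have h1 := iter_map' (F := F) (σ : AlgebraicClosure K →ₐ[K] AlgebraicClosure K) n ![z, 1]
  have h2 : (fun i => (σ : AlgebraicClosure K →ₐ[K] AlgebraicClosure K)
      ((![z, 1] : Fin (1 + 1) → AlgebraicClosure K) i)) = ![σ z, 1] := by
    funext i
    fin_cases i
    · rfl
    · exact map_one _
  rw [h2, h] at h1
  rw [h1]
  funext i
  simp only [Pi.smul_apply, smul_eq_mul, map_mul]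
  congr 1
  exact σ.commutes (b i)

lemma Ob_self (M : IntermediateField K (AlgebraicClosure K)) (z : AlgebraicClosure K) :
    z ∈ Ob M z := ⟨1, M.fixingSubgroup.one_mem, rfl⟩

lemma Ob_eq {M : IntermediateField K (AlgebraicClosure K)} {z w : AlgebraicClosure K}
    (h : w ∈ Ob M z) : Ob M w = Ob M z := by
  obtain ⟨σ, hσ, rfl⟩ := h
  ext u
  constructor
  · rintro ⟨τ, hτ, rfl⟩
    exact ⟨τ * σ, M.fixingSubgroup.mul_mem hτ hσ, rfl⟩
  · rintro ⟨τ, hτ, rfl⟩
    refine ⟨τ * σ⁻¹, M.fixingSubgroup.mul_mem hτ (M.fixingSubgroup.inv_mem hσ), ?_⟩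
    rw [AlgEquiv.mul_apply]
    congr 1
    exact σ.symm_apply_apply z

lemma Ob_roots (M : IntermediateField K (AlgebraicClosure K)) (z : AlgebraicClosure K) :
    (minpoly M z).rootSet (AlgebraicClosure K) ⊆ Ob M z := by
  intro w hw
  rw [Polynomial.mem_rootSet] at hw
  have hz : IsIntegral M z := Algebra.IsIntegral.isIntegral z
  have h1 : minpoly M z = minpoly M w :=
    minpoly.eq_of_irreducible_of_monic (minpoly.irreducible hz) hw.2 (minpoly.monic hz)
  have h2 : IsConjRoot M w z := h1.symm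
  obtain ⟨σ, hσ⟩ := isConjRoot_iff_exists_algEquiv.mp h2
  refine ⟨σ.restrictScalars K, ?_, hσ⟩
  rw [IntermediateField.mem_fixingSubgroup_iff]
  intro x hx
  exact σ.commutes ⟨x, hx⟩

lemma Ob_card (M : IntermediateField K (AlgebraicClosure K)) (z : AlgebraicClosure K)
    (hfin : (Ob M z).Finite) : (minpoly M z).natDegree ≤ (Ob M z).ncard := by
  have hz : IsIntegral M z := Algebra.IsIntegral.isIntegral z
  have h1 : Fintype.card ((minpoly M z).rootSet (AlgebraicClosure K)) =
      (minpoly M z).natDegree := by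
    apply Polynomial.card_rootSet_eq_natDegree
    · exact (minpoly.irreducible hz).separable
    · exact IsAlgClosed.splits _
  rw [← h1, ← Nat.card_eq_fintype_card]
  exact Set.ncard_le_ncard (Ob_roots M z) hfin

/-- the number of orbits -/
lemma orb_count (hq : 1 ≤ q) (hF : ∀ i, (F i).IsHomogeneous q)
    (hmor : ∀ z : Fin (1 + 1) → AlgebraicClosure K, (∀ i, MvPolynomial.aeval z (F i) = 0) → z = 0)
    {b : Fin (1 + 1) → K} (hb : b ≠ 0) (n r : ℕ) (M : IntermediateField K (AlgebraicClosure K))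
    (hr : ∀ z ∈ Fb F b n, r ≤ (minpoly M z).natDegree) :
    {O : Set (AlgebraicClosure K) | ∃ z ∈ Fb F b n, O = Ob M z}.ncard * r ≤ q ^ n := by
  classical
  obtain ⟨hfin, hcard⟩ := Fb_card hq hF hmor hb n
  obtain ⟨S, hS⟩ : ∃ S : Finset (AlgebraicClosure K), (S : Set (AlgebraicClosure K)) = Fb F b n :=
    ⟨hfin.toFinset, hfin.coe_toFinset⟩
  have hsub : ∀ z ∈ Fb F b n, Ob M z ⊆ Fb F b n := by
    rintro z hz w ⟨σ, -, rfl⟩
    exact Fb_stable hz σ
  have h1 : {O : Set (AlgebraicClosure K) | ∃ z ∈ Fb F b n, O = Ob M z} =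
      ((S.image (Ob M) : Finset (Set (AlgebraicClosure K))) : Set (Set (AlgebraicClosure K))) := by
    ext O
    simp only [Set.mem_ofPred_eq, Finset.coe_image, Set.mem_image, hS]
    constructor
    · rintro ⟨z, hz, rfl⟩
      exact ⟨z, hz, rfl⟩
    · rintro ⟨z, hz, rfl⟩
      exact ⟨z, hz, rfl⟩
  rw [h1, Set.ncard_coe_finset]
  have h2 : S.card ≤ q ^ n := by
    rw [← Set.ncard_coe_finset, hS]
    exact hcard
  refine le_trans ?_ h2
  rw [Finset.card_eq_sum_card_image (Ob M) S, ← smul_eq_mul]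
  apply Finset.card_nsmul_le_sum
  intro O hO
  obtain ⟨z, hz, rfl⟩ := Finset.mem_image.mp hO
  have hz' : z ∈ Fb F b n := by rw [← hS]; exact hz
  have h3 := Ob_card M z (hfin.subset (hsub z hz'))
  refine (hr z hz').trans (h3.trans ?_)
  rw [← Set.ncard_coe_finset]
  apply Set.ncard_le_ncard _ (Finset.finite_toSet _)
  intro w hw
  rw [Finset.mem_coe, Finset.mem_filter]
  refine ⟨?_, Ob_eq hw⟩
  rw [← Finset.mem_coe, hS]
  exact hsub z hz' hw

/-- **the number of orbits over the maximal abelian extension is `o(q ^ n)`** -/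
theorem orbits (hq : 2 ≤ q) (hF : ∀ i, (F i).IsHomogeneous q)
    (hmor : ∀ z : Fin (1 + 1) → AlgebraicClosure K, (∀ i, MvPolynomial.aeval z (F i) = 0) → z = 0)
    {b : Fin (1 + 1) → K} (hb : b ≠ 0) (hw : Wnd F b) {ε : ℝ} (hε : 0 < ε) :
    ∃ n₀ : ℕ, ∀ n ≥ n₀,
      (({O : Set (AlgebraicClosure K) | ∃ z ∈ Fb F b n, O = Ob (Kab K) z}.ncard : ℕ) : ℝ) ≤
        ε * (q : ℝ) ^ n := by
  obtain ⟨r, hr⟩ := exists_nat_ge (1 / ε)
  obtain ⟨C, hC, hlev⟩ := levelAb hq hF hmor r
  obtain ⟨n₀, hn₀⟩ := exists_nat_gt (C * (1 + Real.log (1 + Height.logHeight b / finrank ℚ K)))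
  refine ⟨n₀, fun n hn => ?_⟩
  have h1 := orb_count (F := F) (by omega) hF hmor hb n (r + 1) (Kab K) (by
    intro z hz
    by_contra hcon
    push Not at hcon
    have h2 := hlev b hb hw n z hz (by omega)
    have h3 : (n₀ : ℝ) ≤ n := by exact_mod_cast hn
    linarith)
  have h2 : (({O : Set (AlgebraicClosure K) | ∃ z ∈ Fb F b n, O = Ob (Kab K) z}.ncard : ℕ) : ℝ) *
      (r + 1 : ℕ) ≤ (q : ℝ) ^ n := by exact_mod_cast h1
  have hr0 : 0 < ((r + 1 : ℕ) : ℝ) := by positivity
  have h3 : 1 / ε ≤ ((r + 1 : ℕ) : ℝ) := by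
    push_cast
    linarith
  rw [div_le_iff₀ hε] at h3
  have hq0 : (0 : ℝ) < (q : ℝ) ^ n := by
    have : (0 : ℝ) < q := by exact_mod_cast (by omega : 0 < q)
    positivity
  rw [← le_div_iff₀ hr0] at h2
  refine h2.trans ?_
  rw [div_le_iff₀ hr0]
  nlinarith

/-- **finiteness** -/
theorem finite_small (hq : 2 ≤ q) (hF : ∀ i, (F i).IsHomogeneous q)
    (hmor : ∀ z : Fin (1 + 1) → AlgebraicClosure K, (∀ i, MvPolynomial.aeval z (F i) = 0) → z = 0)
    {b : Fin (1 + 1) → K} (hb : b ≠ 0) (hw : Wnd F b) (r : ℕ) :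
    {z : AlgebraicClosure K | (∃ n, z ∈ Fb F b n) ∧ (minpoly (Kab K) z).natDegree ≤ r}.Finite := by
  obtain ⟨C, hC, hlev⟩ := levelAb hq hF hmor r
  obtain ⟨n₀, hn₀⟩ := exists_nat_gt (C * (1 + Real.log (1 + Height.logHeight b / finrank ℚ K)))
  have h1 : (⋃ n ∈ Finset.range n₀, Fb F b n).Finite :=
    Set.Finite.biUnion (Finset.finite_toSet _) fun n _ => (Fb_card (by omega) hF hmor hb n).1
  refine h1.subset ?_
  rintro z ⟨⟨n, hn⟩, hr⟩
  have h2 := hlev b hb hw n z hn hr
  have h3 : n < n₀ := by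
    have : (n : ℝ) < n₀ := lt_of_le_of_lt h2 hn₀
    exact_mod_cast this
  exact Set.mem_biUnion (Finset.mem_coe.mpr (Finset.mem_range.mpr h3)) hn

end fib

end

end Pool.Agent.N715.BO
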